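import Pool.Agent.ZFW.BFinal
import Pool.Agent.ZFW.CAc

/-!
# MP_831107_lc : choice for well-ordered families from the principles `WF^x_yk` with `y ≠ s`

The definitions of the statement are in `Pool.Agent.ZFW.Defs` (the principles), `Pool.Agent.ZFW.BDef`
(`ACk`), `Pool.Agent.GL.Defs` (`IsZF`) and `Pool.Agent.SigB.Defs` (`IsMeasurable`).
-/

universe u

namespace Pool.Agent.Results.MP_831107_lc.ChoiceFromWF

open Pool.Agent.SigB Pool.Agent.ZFW

/-- In every model of `ZF`, each of the principles `WF^x_yk` with `y = i` or `y = b` implies `AC_κ`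
for all ordinals `κ`, unless `x = i` and the least ordinal at which choice fails is a measurable
cardinal. In particular it implies `AC_ω`, as measurable cardinals are uncountable by definition. -/
theorem result (M : Type u) [Membership M M] (hM : Pool.Agent.GL.IsZF M) (x : Ix) (y : Iy)
    (hy : y ≠ Iy.s) (h : WF1 M x y ∨ WF2 M x y ∨ WF3 M x y ∨ WF4 M x y) :
    ∀ k : M, IsOrdinal k → ACk k ∨ (x = Ix.i ∧
      ∃ m : M, (m ∈ k ∨ m = k) ∧ IsMeasurable m ∧ ¬ ACk m ∧ ∀ l : M, l ∈ m → ACk l) := by
  intro k hk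
  cases x with
  | i =>
    rcases (choice_of_wf hy h).2 k hk with h1 | h1
    · exact Or.inl h1
    · exact Or.inr ⟨rfl, h1⟩
  | s => exact Or.inl (ack_of_wfs hy h k hk)

end Pool.Agent.Results.MP_831107_lc.ChoiceFromWF
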