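import Pool.Agent.ZFW.CStat

/-!
# MP_831107_lc : the partition principle modulo one set, from the principles `WF^s_ik`

The definitions of the statement are in `Pool.Agent.ZFW.Defs` (the principles, `Le`, `LeStar`,
`EqCard`), `Pool.Agent.ZFW.CFin` (`IsProd`, `LeMul`), `Pool.Agent.ZFW.CPin` (`LeSum`, `Absorbs`,
`PartMod`), `Pool.Agent.ZFW.CStat` (`LeOrd`, `IdemOrd`, `Fails`), `Pool.Agent.GL.Defs` (`IsZF`)
and `Pool.Agent.SigB.Defs` (`IsOrdinal`).
-/

universe u

namespace Pool.Agent.Results.MP_831107_lc.PartitionAbove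

open Pool.Agent.SigB Pool.Agent.ZFW

/-- In every model of `ZF`, each of the four principles `WF^s_ik` implies that there is a set `D`
modulo which the partition principle holds: every `Y ≤* Z` satisfies `Y ≤ Z + D × κ` for an
ordinal `κ ≤* Z`, and the partition principle and the dual Cantor-Schröder-Bernstein theorem hold
for all sets `X` with `X × D ≤ X`. Every failure `B ≤* A` of the partition principle up to
well-ordered multiples gives such sets: all `D ≥ A, B`. If there is no such failure, the partition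
principle holds. For every failure, up to well-ordered multiples: `B ≤ A × A × A`, or `A` is
idempotent, and then the failure is the only one and every set `Z` is below `A` or above `A`
and `B`. -/
theorem result (M : Type u) [Membership M M] (hM : Pool.Agent.GL.IsZF M)
    (h : WF1 M Ix.s Iy.i ∨ WF2 M Ix.s Iy.i ∨ WF3 M Ix.s Iy.i ∨ WF4 M Ix.s Iy.i) :
    (∃ D : M, PartMod D) ∧
    (∀ A B : M, Fails B A → ∀ D, Le A D → Le B D → PartMod D) ∧
    ((∀ A B : M, ¬ Fails B A) → ∀ A B : M, LeStar B A → Le B A) ∧
    ∀ A B : M, Fails B A → (∀ Q P, IsProd Q A A → IsProd P Q A → LeOrd B P) ∨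
      (IdemOrd A ∧ (∀ Z, LeOrd Z A ∨ (LeOrd A Z ∧ LeOrd B Z)) ∧
      ∀ A' B', Fails B' A' → LeOrd A' A ∧ LeOrd A A' ∧ LeOrd B' B ∧ LeOrd B B') :=
  part_mod_uni (wf4_si h)

end Pool.Agent.Results.MP_831107_lc.PartitionAbove
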