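import Pool.Agent.ZFW.DCsb

/-!
# MP_831107_lc : the partition principle from weak forms of it and any of the principles `WF^x_yk`

The definitions of the statement are in `Pool.Agent.ZFW.Defs` (the principles, `Le`, `LeStar`,
`EqCard`, `CSBstar`), `Pool.Agent.ZFW.DCsb` (`PartP`, `WeakPartP`, `MulPartP`, `AllWF`),
`Pool.Agent.ZFW.CFin` (`IsProd`), `Pool.Agent.ZFW.BDef` (`ACk`), `Pool.Agent.GL.Defs` (`IsZF`) and
`Pool.Agent.SigB.Defs` (`IsOrdinal`, `IsMeasurable`).
-/

universe u

namespace Pool.Agent.Results.MP_831107_lc.PartitionFromCSB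

open Pool.Agent.SigB Pool.Agent.ZFW

/-- In every model of `ZF` in which one of the 24 principles `WF^x_yk` holds, the partition
principle, `CSB*` and all 24 principles hold as soon as one of the following does:
* the weak partition principle;
* `CSB*`;
* the principle is one of the `WF^s_bk`;
* `y ≠ s`, the partition principle up to well-ordered multiples, and `AC_κ` for all ordinals `κ`
  or there is no measurable cardinal. -/
theorem result (M : Type u) [Membership M M] (hM : Pool.Agent.GL.IsZF M) (x : Ix) (y : Iy)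
    (h : WF1 M x y ∨ WF2 M x y ∨ WF3 M x y ∨ WF4 M x y)
    (h' : WeakPartP M ∨ CSBstar M ∨ (x = Ix.s ∧ y = Iy.b) ∨
      (y ≠ Iy.s ∧ MulPartP M ∧
        ((∀ k : M, IsOrdinal k → ACk k) ∨ ∀ m : M, ¬ IsMeasurable m))) :
    PartP M ∧ CSBstar M ∧ AllWF M := by
  rcases h' with hw | hc | ⟨rfl, rfl⟩ | ⟨hy, hm, hx⟩
  · exact partP_of_weak hw h
  · exact partP_of_weak (weakPartP_of_csb hc) h
  · exact partP_of_wfsb h
  · exact partP_of_mulPartP hy h (Or.inr hx) hm

end Pool.Agent.Results.MP_831107_lc.PartitionFromCSB
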