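import Pool.Agent.ZFW.ParM

/-!
# MP_831107_lc : the principles `WF^x_sk` do not imply `CSB*` over ZF

The definitions of the statement are in `Pool.Agent.ZFW.Defs`, `Pool.Agent.GL.Defs` and
`Pool.Agent.SigB.Defs`.
-/

namespace Pool.Agent.Results.MP_831107_lc.SurjectiveWFZF

open Pool.Agent.ZFW

/-- There is a model of `ZF` in which all eight principles `WF^x_sk` (`x = i, s`,
`k = 1, 2, 3, 4`) hold and the dual Cantor-Schröder-Bernstein theorem `CSB*` fails. -/
theorem result : ∃ (M : Type 1) (_ : Membership M M), Pool.Agent.GL.IsZF M ∧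
    (∀ x : Ix, WF1 M x Iy.s ∧ WF2 M x Iy.s ∧ WF3 M x Iy.s ∧ WF4 M x Iy.s) ∧
    ¬ CSBstar M :=
  exists_model

end Pool.Agent.Results.MP_831107_lc.SurjectiveWFZF
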